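import Pool.Agent.W2helper3.BQ.Stm2
import Pool.Agent.W2helper33.BQ.JE

/-!
# An inequality of Jensen type for a probability measure (project BQ2)
-/

set_option autoImplicit false

open MeasureTheory Set Filter Topology

namespace Pool.Agent.W2helper92.BQ

open Pool.Agent.W2helper3.BQ Pool.Agent.W2helper33.BQ

theorem p_JE2 : P_JE2 := by
  intro C p hC hp μ hμ A X hA hAs hA0 hX u
  have hp0 : 0 < p := by linarith
  set y : ℝ → ℝ := fun v => C * A (u + v) / p with hy
  have hyc : Continuous y := by
    rw [hy]
    fun_prop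
  have hys : HasCompactSupport y := by
    have h1 : HasCompactSupport fun v => A (u + v) := hAs.comp_homeomorph (Homeomorph.addLeft u)
    exact h1.comp_left (g := fun a => C * a / p) (by simp)
  have hy0 : ∀ v, 0 ≤ y v := fun v => by
    have := hA0 (u + v)
    rw [hy]
    positivity
  have hph0 : ph X p 0 = 0 := by
    unfold ph
    ring
  have hy2 : HasCompactSupport fun v => ph X p (y v) := hys.comp_left hph0
  have h1 := (convexOn_ph hX hp).map_integral_le (μ := μ) (f := y)
    (continuous_ph X hp).continuousOn isClosed_Ici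
    (Filter.Eventually.of_forall fun v => hy0 v)
    (hyc.integrable_of_hasCompactSupport hys)
    (((continuous_ph X hp).comp hyc).integrable_of_hasCompactSupport hy2)
  have hW : W2 C p μ A u = ∫ v, y v ∂μ := by
    unfold W2
    rw [← integral_const_mul]
    refine integral_congr_ae (Filter.Eventually.of_forall fun v => ?_)
    simp only [hy]
    ring
  have e1 : p ^ 2 / 2 * (W2 C p μ A u) ^ 2 * (X + W2 C p μ A u) ^ (p - 2) =
      p ^ 2 / 2 * ph X p (∫ v, y v ∂μ) := by
    rw [hW]
    unfold ph
    ring
  have e2 : ∫ v, p ^ 2 / 2 * (C * A (u + v) / p) ^ 2 * (X + C * A (u + v) / p) ^ (p - 2) ∂μ =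
      p ^ 2 / 2 * ∫ v, ph X p (y v) ∂μ := by
    rw [← integral_const_mul]
    refine integral_congr_ae (Filter.Eventually.of_forall fun v => ?_)
    simp only [hy, ph]
    ring
  rw [e1, e2]
  exact mul_le_mul_of_nonneg_left h1 (by positivity)

end Pool.Agent.W2helper92.BQ
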